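import Mathlib

/-!
# Block PR of MP_0dc0fb: a partition theorem for histories, by idempotent ultrafilters
-/

namespace Pool.Agent.Helper14.FV

open Filter

/-! ## Finite product Ramsey theorem -/

/-- points with coordinates in `Y` on `E` and equal to `z` elsewhere. -/
def PR {I : Type} (E : Finset I) (Y : I → Finset ℕ) (z x : I → ℕ) : Prop :=
  (∀ i ∈ E, x i ∈ Y i) ∧ ∀ i, i ∉ E → x i = z i

theorem PR.mono {I : Type} {E : Finset I} {Y Y' : I → Finset ℕ} {z x : I → ℕ}
    (h : PR E Y z x) (hY : ∀ i ∈ E, Y i ⊆ Y' i) : PR E Y' z x :=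
  ⟨fun i hi => hY i hi (h.1 i hi), h.2⟩

/-- the Ramsey statement for one colouring. -/
def R1 {I : Type} (E : Finset I) : Prop :=
  ∀ m : ℕ, ∃ M : ℕ, ∀ (X : I → Finset ℕ), (∀ i ∈ E, M ≤ (X i).card) →
    ∀ (z : I → ℕ) (p : (I → ℕ) → Prop), ∃ Y : I → Finset ℕ,
      (∀ i ∈ E, Y i ⊆ X i ∧ m ≤ (Y i).card) ∧
        ((∀ x, PR E Y z x → p x) ∨ (∀ x, PR E Y z x → ¬ p x))

/-- the Ramsey statement for several colourings. -/
theorem R1.multi {I : Type} {E : Finset I} (h : R1 E) (K : ℕ) : ∀ m : ℕ, ∃ M : ℕ,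
    ∀ (X : I → Finset ℕ), (∀ i ∈ E, M ≤ (X i).card) → ∀ (z : I → ℕ) (Q : Finset ℕ)
      (p : ℕ → (I → ℕ) → Prop), Q.card ≤ K → ∃ Y : I → Finset ℕ,
      (∀ i ∈ E, Y i ⊆ X i ∧ m ≤ (Y i).card) ∧
        ∀ q ∈ Q, ((∀ x, PR E Y z x → p q x) ∨ (∀ x, PR E Y z x → ¬ p q x)) := by
  classical
  induction K with
  | zero =>
    intro m
    refine ⟨m, fun X hX z Q p hQ => ⟨X, fun i hi => ⟨le_rfl, hX i hi⟩, fun q hq => ?_⟩⟩
    have : Q = ∅ := Finset.card_eq_zero.mp (by omega)
    rw [this] at hq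
    exact absurd hq (Finset.notMem_empty q)
  | succ K ih =>
    intro m
    obtain ⟨M1, hM1⟩ := h m
    obtain ⟨M, hM⟩ := ih (max m M1)
    refine ⟨M, fun X hX z Q p hQ => ?_⟩
    rcases Q.eq_empty_or_nonempty with hQe | ⟨q0, hq0⟩
    · obtain ⟨Y, hY1, _⟩ := hM X hX z ∅ p (by simp)
      refine ⟨Y, fun i hi => ⟨(hY1 i hi).1, (le_max_left _ _).trans (hY1 i hi).2⟩, ?_⟩
      intro q hq
      rw [hQe] at hq
      exact absurd hq (Finset.notMem_empty q)
    · obtain ⟨Y, hY1, hY2⟩ := hM X hX z (Q.erase q0) p (by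
        rw [Finset.card_erase_of_mem hq0]; omega)
      obtain ⟨Y', hY'1, hY'2⟩ := hM1 Y (fun i hi => (le_max_right _ _).trans (hY1 i hi).2) z (p q0)
      refine ⟨Y', fun i hi => ⟨(hY'1 i hi).1.trans (hY1 i hi).1, (hY'1 i hi).2⟩, ?_⟩
      intro q hq
      by_cases hqq : q = q0
      · rw [hqq]; exact hY'2
      · rcases hY2 q (Finset.mem_erase.mpr ⟨hqq, hq⟩) with h1 | h1
        · exact Or.inl fun x hx => h1 x (hx.mono fun i hi => (hY'1 i hi).1)
        · exact Or.inr fun x hx => h1 x (hx.mono fun i hi => (hY'1 i hi).1)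

theorem ramsey {I : Type} (E : Finset I) : R1 E := by
  classical
  induction E using Finset.induction_on with
  | empty =>
    intro m
    refine ⟨m, fun X hX z p => ⟨X, fun i hi => absurd hi (Finset.notMem_empty i), ?_⟩⟩
    have hx : ∀ x, PR ∅ X z x → x = z := fun x hx => funext fun i => hx.2 i (Finset.notMem_empty i)
    by_cases hp : p z
    · exact Or.inl fun x h => by rw [hx x h]; exact hp
    · exact Or.inr fun x h => by rw [hx x h]; exact hp
  | insert a E ha ih =>
    intro m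
    obtain ⟨M, hM⟩ := R1.multi ih (2 * m) m
    refine ⟨max (2 * m) M, fun X hX z p => ?_⟩
    obtain ⟨Q, hQX, hQc⟩ := Finset.exists_subset_card_eq
      ((le_max_left (2 * m) M).trans (hX a (Finset.mem_insert_self a E)))
    obtain ⟨Y, hY1, hY2⟩ := hM X (fun i hi => (le_max_right _ _).trans
      (hX i (Finset.mem_insert_of_mem hi))) z Q (fun y x => p (Function.update x a y)) hQc.le
    -- the points with colour true
    let Q1 := Q.filter (fun y => ∀ x, PR E Y z x → p (Function.update x a y))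
    have hcase : ∃ Ya : Finset ℕ, Ya ⊆ Q ∧ m ≤ Ya.card ∧
        ((∀ y ∈ Ya, ∀ x, PR E Y z x → p (Function.update x a y)) ∨
          (∀ y ∈ Ya, ∀ x, PR E Y z x → ¬ p (Function.update x a y))) := by
      by_cases h1 : m ≤ Q1.card
      · exact ⟨Q1, Finset.filter_subset _ _, h1, Or.inl fun y hy => (Finset.mem_filter.mp hy).2⟩
      · refine ⟨Q \ Q1, Finset.sdiff_subset, ?_, Or.inr fun y hy => ?_⟩
        · have h2 := Finset.card_sdiff_add_card_eq_card (Finset.filter_subset
            (fun y => ∀ x, PR E Y z x → p (Function.update x a y)) Q)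
          have h3 : (Q \ Q1).card + Q1.card = Q.card := h2
          omega
        · obtain ⟨hyQ, hyQ1⟩ := Finset.mem_sdiff.mp hy
          rcases hY2 y hyQ with h2 | h2
          · exact absurd (Finset.mem_filter.mpr ⟨hyQ, h2⟩) hyQ1
          · exact h2
    obtain ⟨Ya, hYaQ, hYac, hYa⟩ := hcase
    have hdec : ∀ x, PR (insert a E) (Function.update Y a Ya) z x →
        x a ∈ Ya ∧ PR E Y z (Function.update x a (z a)) ∧
          Function.update (Function.update x a (z a)) a (x a) = x := by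
      intro x hx
      refine ⟨?_, ⟨?_, ?_⟩, ?_⟩
      · have := hx.1 a (Finset.mem_insert_self a E)
        rwa [Function.update_self] at this
      · intro i hi
        have hia : i ≠ a := fun h => ha (h ▸ hi)
        have := hx.1 i (Finset.mem_insert_of_mem hi)
        rwa [Function.update_of_ne hia] at this ⊢
      · intro i hi
        by_cases hia : i = a
        · rw [hia, Function.update_self]
        · rw [Function.update_of_ne hia]
          exact hx.2 i (fun h => (Finset.mem_insert.mp h).elim hia hi)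
      · rw [Function.update_idem, Function.update_eq_self]
    refine ⟨Function.update Y a Ya, ?_, ?_⟩
    · intro i hi
      by_cases hia : i = a
      · rw [hia, Function.update_self]
        exact ⟨hYaQ.trans hQX, hYac⟩
      · rw [Function.update_of_ne hia]
        exact hY1 i ((Finset.mem_insert.mp hi).resolve_left hia)
    · rcases hYa with h1 | h1
      · left
        intro x hx
        obtain ⟨h2, h3, h4⟩ := hdec x hx
        have := h1 (x a) h2 _ h3
        rwa [h4] at this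
      · right
        intro x hx
        obtain ⟨h2, h3, h4⟩ := hdec x hx
        have := h1 (x a) h2 _ h3
        rwa [h4] at this

/-! ## Words -/

/-- a letter is a level and a point. -/
abbrev Letter (I : Type) : Type := ℕ × (I → ℕ)

/-- words of letters. -/
abbrev Word (I : Type) : Type := FreeMonoid (Letter I)

/-- the points of the box with factors `J` over the level `k`. -/
def box {I : Type} (F : ℕ → Finset I) (k : ℕ) (J : I → Finset ℕ) : Set (I → ℕ) :=
  {x | PR (F k) J (fun _ => 0) x}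

/-- strictly increasing levels in the open interval `(m, k)`, letters in the boxes. -/
structure Good {I : Type} (F : ℕ → Finset I) (B : ℕ → I → Finset ℕ) (m k : ℕ)
    (u : List (Letter I)) : Prop where
  lt : ∀ a ∈ u, m < a.1 ∧ a.1 < k
  inc : u.Pairwise (fun a b => a.1 < b.1)
  mem : ∀ a ∈ u, ∀ i ∈ F a.1, a.2 i ∈ B a.1 i

/-- one box of size `m` above the level `m` inside `A`. -/
def Lrg {I : Type} (F : ℕ → Finset I) (B : ℕ → I → Finset ℕ) (A : Set (Word I)) (m : ℕ) : Prop :=
  ∃ (u : List (Letter I)) (k : ℕ) (J : I → Finset ℕ), Good F B m k u ∧ m < k ∧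
    (∀ i ∈ F k, (J i).Nonempty ∧ J i ⊆ B k i) ∧ (∀ i ∈ F m, m ≤ (J i).card) ∧
    ∀ x ∈ box F k J, FreeMonoid.ofList (u ++ [(k, x)]) ∈ A

section
variable {I : Type} {F : ℕ → Finset I} {B : ℕ → I → Finset ℕ}

theorem Lrg.anti (hF : Monotone F) {A : Set (Word I)} {m m' : ℕ} (h : Lrg F B A m')
    (hm : m ≤ m') : Lrg F B A m := by
  obtain ⟨u, k, J, hu, hk, hJ, hJm, hA⟩ := h
  exact ⟨u, k, J, ⟨fun a ha => ⟨lt_of_le_of_lt hm (hu.lt a ha).1, (hu.lt a ha).2⟩, hu.inc, hu.mem⟩,
    lt_of_le_of_lt hm hk, hJ, fun i hi => hm.trans (hJm i (hF hm hi)), hA⟩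

theorem Lrg.mono {A A' : Set (Word I)} {m : ℕ} (h : Lrg F B A m) (hA : A ⊆ A') :
    Lrg F B A' m := by
  obtain ⟨u, k, J, hu, hk, hJ, hJm, h1⟩ := h
  exact ⟨u, k, J, hu, hk, hJ, hJm, fun x hx => hA (h1 x hx)⟩

theorem box_nonempty {k : ℕ} {J : I → Finset ℕ} (hJ : ∀ i ∈ F k, (J i).Nonempty) :
    (box F k J).Nonempty := by
  classical
  refine ⟨fun i => if h : i ∈ F k then (hJ i h).choose else 0, ?_, ?_⟩
  · intro i hi
    simp only [dif_pos hi]
    exact (hJ i hi).choose_spec
  · intro i hi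
    simp only [dif_neg hi]

/-- the union of two sets which are not large is not large. -/
theorem Lrg.union (hF : Monotone F) {A1 A2 : Set (Word I)} {m : ℕ}
    (h : ∀ M, Lrg F B (A1 ∪ A2) M) : Lrg F B A1 m ∨ Lrg F B A2 m := by
  classical
  obtain ⟨M, hM⟩ := ramsey (F m) (m + 1)
  obtain ⟨u, k, J, hu, hk, hJ, hJm, hA⟩ := h (max m (M + 1))
  have hmk : m < k := lt_of_le_of_lt (le_max_left _ _) hk
  have hu' : Good F B m k u :=
    ⟨fun a ha => ⟨lt_of_le_of_lt (le_max_left _ _) (hu.lt a ha).1, (hu.lt a ha).2⟩, hu.inc, hu.mem⟩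
  have hFm : F m ⊆ F (max m (M + 1)) := hF (le_max_left _ _)
  have hFk : F m ⊆ F k := hF hmk.le
  -- base point
  let z : I → ℕ := fun i => if h : i ∈ F k then (hJ i h).1.choose else 0
  have hz1 : ∀ i ∈ F k, z i ∈ J i := by
    intro i hi
    simp only [z, dif_pos hi]
    exact (hJ i hi).1.choose_spec
  have hz2 : ∀ i, i ∉ F k → z i = 0 := by
    intro i hi
    simp only [z, dif_neg hi]
  obtain ⟨Y, hY1, hY2⟩ := hM J (fun i hi => by
    have := hJm i (hFm hi)
    have h2 := le_max_right m (M + 1)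
    omega) z (fun x => FreeMonoid.ofList (u ++ [(k, x)]) ∈ A1)
  -- the new box
  let J' : I → Finset ℕ := fun i => if i ∈ F m then Y i else {z i}
  have hJ'1 : ∀ i ∈ F m, J' i = Y i := fun i hi => if_pos hi
  have hJ'2 : ∀ i, i ∉ F m → J' i = {z i} := fun i hi => if_neg hi
  have hbox : ∀ x ∈ box F k J', PR (F m) Y z x := by
    intro x hx
    refine ⟨fun i hi => ?_, fun i hi => ?_⟩
    · have := hx.1 i (hFk hi)
      rwa [hJ'1 i hi] at this
    · by_cases hik : i ∈ F k
      · have := hx.1 i hik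
        rw [hJ'2 i hi] at this
        exact Finset.mem_singleton.mp this
      · rw [hz2 i hik]
        exact hx.2 i hik
  have hboxJ : box F k J' ⊆ box F k J := by
    intro x hx
    refine ⟨fun i hi => ?_, hx.2⟩
    by_cases him : i ∈ F m
    · exact (hY1 i him).1 ((hbox x hx).1 i him)
    · rw [(hbox x hx).2 i him]
      exact hz1 i hi
  have hJ'B : ∀ i ∈ F k, (J' i).Nonempty ∧ J' i ⊆ B k i := fun i hi => by
    by_cases him : i ∈ F m
    · rw [hJ'1 i him]
      exact ⟨Finset.card_pos.mp (lt_of_lt_of_le (Nat.succ_pos m) (hY1 i him).2),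
        (hY1 i him).1.trans (hJ i hi).2⟩
    · rw [hJ'2 i him]
      exact ⟨Finset.singleton_nonempty _, Finset.singleton_subset_iff.mpr ((hJ i hi).2 (hz1 i hi))⟩
  have hJ'm : ∀ i ∈ F m, m ≤ (J' i).card := fun i hi => by
    rw [hJ'1 i hi]
    exact (Nat.le_succ m).trans (hY1 i hi).2
  rcases hY2 with h1 | h1
  · exact Or.inl ⟨u, k, J', hu', hmk, hJ'B, hJ'm, fun x hx => h1 x (hbox x hx)⟩
  · refine Or.inr ⟨u, k, J', hu', hmk, hJ'B, hJ'm, fun x hx => ?_⟩
    rcases hA x (hboxJ hx) with h2 | h2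
    · exact absurd h2 (h1 x (hbox x hx))
    · exact h2

/-- large sets. -/
def Large (F : ℕ → Finset I) (B : ℕ → I → Finset ℕ) (A : Set (Word I)) : Prop :=
  ∀ m, Lrg F B A m

theorem Large.union_or (hF : Monotone F) {A1 A2 : Set (Word I)} (h : Large F B (A1 ∪ A2)) :
    Large F B A1 ∨ Large F B A2 := by
  by_contra hcon
  rw [not_or] at hcon
  obtain ⟨h1, h2⟩ := hcon
  unfold Large at h1 h2
  push Not at h1 h2
  obtain ⟨m1, h1⟩ := h1
  obtain ⟨m2, h2⟩ := h2
  rcases Lrg.union (m := max m1 m2) hF h with h3 | h3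
  · exact h1 (h3.anti hF (le_max_left _ _))
  · exact h2 (h3.anti hF (le_max_right _ _))

theorem large_univ (hF : Monotone F) (hB : ∀ t, ∀ i ∈ F t, (B t i).Nonempty ∧ t ≤ (B t i).card) :
    Large F B Set.univ := by
  intro m
  refine ⟨[], m + 1, B (m + 1), ⟨by simp, by simp, by simp⟩, Nat.lt_succ_self m,
    fun i hi => ⟨(hB _ i hi).1, le_rfl⟩, fun i hi => ?_, fun x _ => trivial⟩
  have := (hB (m + 1) i (hF (Nat.le_succ m) hi)).2
  omega

theorem not_large_empty : ¬ Large F B ∅ := by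
  intro h
  obtain ⟨u, k, J, _, _, hJ, _, hA⟩ := h 0
  obtain ⟨x, hx⟩ := box_nonempty (F := F) (k := k) (fun i hi => (hJ i hi).1)
  exact hA x hx

/-- the filter of complements of sets which are not large. -/
def LF (hF : Monotone F) (B : ℕ → I → Finset ℕ) : Filter (Word I) :=
  Filter.comk (fun A => ¬ Large F B A) not_large_empty
    (fun _ ht _ hst hs => ht fun m => (hs m).mono hst)
    (fun _ hs _ ht hst => (Large.union_or hF hst).elim hs ht)

theorem mem_LF (hF : Monotone F) {A : Set (Word I)} : A ∈ LF hF B ↔ ¬ Large F B Aᶜ := Iff.rfl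

theorem LF_neBot (hF : Monotone F)
    (hB : ∀ t, ∀ i ∈ F t, (B t i).Nonempty ∧ t ≤ (B t i).card) : (LF hF B).NeBot := by
  rw [Filter.neBot_iff]
  intro h
  have h1 : (∅ : Set (Word I)) ∈ LF hF B := by rw [h]; exact Filter.mem_bot
  rw [mem_LF, Set.compl_empty] at h1
  exact h1 (large_univ hF hB)

theorem large_of_mem {hF : Monotone F} {V : Ultrafilter (Word I)} (hV : (V : Filter _) ≤ LF hF B)
    {A : Set (Word I)} (hA : A ∈ V) : Large F B A := by
  by_contra hcon
  have h1 : Aᶜ ∈ LF hF B := by rw [mem_LF, compl_compl]; exact hcon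
  have h2 : Aᶜ ∈ V := hV h1
  exact (Ultrafilter.compl_mem_iff_notMem.mp h2) hA

theorem le_LF_of_large {hF : Monotone F} {V : Ultrafilter (Word I)}
    (hV : ∀ A ∈ V, Large F B A) : (V : Filter _) ≤ LF hF B := by
  intro A hA
  by_contra hcon
  have h1 : Aᶜ ∈ V := Ultrafilter.compl_mem_iff_notMem.mpr hcon
  exact (mem_LF hF).mp hA (hV _ h1)

/-- good nonempty words above the level `m`. -/
def GW (F : ℕ → Finset I) (B : ℕ → I → Finset ℕ) (m : ℕ) : Set (Word I) :=
  {w | ∃ k, m < k ∧ Good F B m k (FreeMonoid.toList w)}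

theorem Good.append {m k l : ℕ} {u v : List (Letter I)} (hmk : m < k) (hu : Good F B m k u)
    (hv : Good F B (k - 1) l v) (hkl : k ≤ l) : Good F B m l (u ++ v) := by
  refine ⟨?_, ?_, ?_⟩
  · intro a ha
    rcases List.mem_append.mp ha with h | h
    · exact ⟨(hu.lt a h).1, lt_of_lt_of_le (hu.lt a h).2 hkl⟩
    · have := (hv.lt a h).1
      exact ⟨by omega, (hv.lt a h).2⟩
  · rw [List.pairwise_append]
    refine ⟨hu.inc, hv.inc, ?_⟩
    intro a ha b hb
    have h1 := (hu.lt a ha).2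
    have h2 := (hv.lt b hb).1
    omega
  · intro a ha
    rcases List.mem_append.mp ha with h | h
    · exact hu.mem a h
    · exact hv.mem a h

theorem GW_mem {hF : Monotone F} {V : Ultrafilter (Word I)} (hV : (V : Filter _) ≤ LF hF B)
    (m : ℕ) : GW F B m ∈ V := by
  by_contra hcon
  have h1 : (GW F B m)ᶜ ∈ V := Ultrafilter.compl_mem_iff_notMem.mpr hcon
  obtain ⟨u, k, J, hu, hk, hJ, hJm, hA⟩ := large_of_mem hV h1 m
  obtain ⟨x, hx⟩ := box_nonempty (F := F) (k := k) (fun i hi => (hJ i hi).1)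
  apply hA x hx
  refine ⟨k + 1, by omega, ?_⟩
  refine ⟨?_, ?_, ?_⟩
  · intro a ha
    rcases List.mem_append.mp ha with h | h
    · exact ⟨(hu.lt a h).1, by have := (hu.lt a h).2; omega⟩
    · rw [List.mem_singleton.mp h]
      exact ⟨hk, Nat.lt_succ_self k⟩
  · change (u ++ [(k, x)]).Pairwise _
    rw [List.pairwise_append]
    refine ⟨hu.inc, List.pairwise_singleton _ _, ?_⟩
    intro a ha b hb
    rw [List.mem_singleton.mp hb]
    exact (hu.lt a ha).2
  · intro a ha
    rcases List.mem_append.mp ha with h | h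
    · exact hu.mem a h
    · rw [List.mem_singleton.mp h]
      intro i hi
      exact (hJ i hi).2 (hx.1 i hi)

attribute [local instance] Ultrafilter.semigroup

theorem mul_le_LF {hF : Monotone F} {V W : Ultrafilter (Word I)}
    (hV : (V : Filter _) ≤ LF hF B) (hW : (W : Filter _) ≤ LF hF B) :
    ((V * W : Ultrafilter (Word I)) : Filter _) ≤ LF hF B := by
  apply le_LF_of_large
  intro A hA m
  have h1 : ∀ᶠ w in V, ∀ᶠ v in W, w * v ∈ A := (Ultrafilter.eventually_mul V W (· ∈ A)).mp hA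
  obtain ⟨w, hw1, hw2⟩ := (h1.and (GW_mem hV m)).exists
  obtain ⟨k0, hk0, hgood⟩ := hw2
  obtain ⟨u, k, J, hu, hk, hJ, hJm, hA'⟩ := large_of_mem hW hw1 k0
  refine ⟨FreeMonoid.toList w ++ u, k, J, ?_, by omega, hJ, fun i hi =>
    (hk0.le).trans (hJm i (hF hk0.le hi)), ?_⟩
  · refine Good.append hk0 hgood ?_ hk.le
    exact ⟨fun a ha => ⟨by have := (hu.lt a ha).1; omega, (hu.lt a ha).2⟩, hu.inc, hu.mem⟩
  · intro x hx
    have h2 := hA' x hx
    rw [List.append_assoc]
    exact h2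

theorem exists_idem (hF : Monotone F)
    (hB : ∀ t, ∀ i ∈ F t, (B t i).Nonempty ∧ t ≤ (B t i).card) :
    ∃ V : Ultrafilter (Word I), (V : Filter _) ≤ LF hF B ∧ V * V = V := by
  have hne := LF_neBot hF hB
  have h1 : IsClosed {V : Ultrafilter (Word I) | (V : Filter _) ≤ LF hF B} := by
    have h2 : {V : Ultrafilter (Word I) | (V : Filter _) ≤ LF hF B} =
        ⋂ A ∈ LF hF B, {V : Ultrafilter (Word I) | A ∈ V} := by
      ext V
      simp only [Set.mem_iInter]
      exact Iff.rfl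
    rw [h2]
    exact isClosed_biInter fun A _ => ultrafilter_isClosed_basic A
  obtain ⟨V, hV, hVV⟩ := exists_idempotent_in_compact_subsemigroup
    (M := Ultrafilter (Word I)) Ultrafilter.continuous_mul_left
    {V : Ultrafilter (Word I) | (V : Filter _) ≤ LF hF B}
    ⟨Ultrafilter.of (LF hF B), Ultrafilter.of_le _⟩ h1.isCompact
    (fun V hV W hW => mul_le_LF hV hW)
  exact ⟨V, hV, hVV⟩

/-! ## Histories of words -/

/-- change the history at one level. -/
noncomputable def upd (h : ℕ → I → ℕ) (a : Letter I) : ℕ → I → ℕ := Function.update h a.1 a.2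

theorem foldl_upd_of_ne (u : List (Letter I)) : ∀ (h : ℕ → I → ℕ) (s : ℕ), (∀ a ∈ u, a.1 ≠ s) →
    (u.foldl upd h) s = h s := by
  induction u with
  | nil => intro h s _; rfl
  | cons a u ih =>
    intro h s hs
    rw [List.foldl_cons, ih _ _ (fun b hb => hs b (List.mem_cons_of_mem _ hb))]
    exact Function.update_of_ne (hs a List.mem_cons_self).symm _ _

theorem foldl_upd_congr (u : List (Letter I)) : ∀ (h h' : ℕ → I → ℕ) (s : ℕ), h s = h' s →
    (u.foldl upd h) s = (u.foldl upd h') s := by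
  induction u with
  | nil => intro h h' s hs; exact hs
  | cons a u ih =>
    intro h h' s hs
    rw [List.foldl_cons, List.foldl_cons]
    apply ih
    by_cases has : s = a.1
    · subst has
      unfold upd
      rw [Function.update_self, Function.update_self]
    · unfold upd
      rw [Function.update_of_ne has, Function.update_of_ne has]
      exact hs

theorem foldl_upd_mem (u : List (Letter I)) : ∀ (h : ℕ → I → ℕ),
    (∀ s, ∀ i ∈ F s, h s i ∈ B s i) → (∀ a ∈ u, ∀ i ∈ F a.1, a.2 i ∈ B a.1 i) →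
    ∀ s, ∀ i ∈ F s, (u.foldl upd h) s i ∈ B s i := by
  induction u with
  | nil => intro h h1 _; exact h1
  | cons a u ih =>
    intro h h1 h2
    rw [List.foldl_cons]
    refine ih _ ?_ (fun b hb => h2 b (List.mem_cons_of_mem _ hb))
    intro s i hi
    unfold upd
    by_cases has : s = a.1
    · subst has
      rw [Function.update_self]
      exact h2 a List.mem_cons_self i hi
    · rw [Function.update_of_ne has]
      exact h1 s i hi

/-- the history of a word over the base history `e`. -/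
noncomputable def hist (e : ℕ → I → ℕ) (w : Word I) : ℕ → I → ℕ :=
  (FreeMonoid.toList w).foldl upd e

/-- the last level of a word. -/
def lvl (w : Word I) : ℕ := (FreeMonoid.toList w).foldl (fun _ a => a.1) 0

theorem lvl_last (w : Word I) (u : List (Letter I)) (k : ℕ) (x : I → ℕ) :
    lvl (w * FreeMonoid.ofList (u ++ [(k, x)])) = k := by
  unfold lvl
  change (FreeMonoid.toList w ++ (u ++ [(k, x)])).foldl _ 0 = k
  rw [List.foldl_append, List.foldl_append]
  rfl

theorem hist_last (e : ℕ → I → ℕ) (w : Word I) (u : List (Letter I)) (k : ℕ) (x : I → ℕ) :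
    hist e (w * FreeMonoid.ofList (u ++ [(k, x)])) =
      Function.update (u.foldl upd (hist e w)) k x := by
  unfold hist
  change (FreeMonoid.toList w ++ (u ++ [(k, x)])).foldl upd e = _
  rw [List.foldl_append, List.foldl_append]
  rfl

/-! ## The fusion -/

theorem box_finite (k : ℕ) (J : I → Finset ℕ) : (box F k J).Finite := by
  have h1 : ((fun (x : I → ℕ) (i : F k) => x i) '' box F k J).Finite := by
    refine (Set.Finite.pi' (fun i : F k => (J i).finite_toSet)).subset ?_
    rintro _ ⟨x, hx, rfl⟩ i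
    exact hx.1 i i.2
  refine Set.Finite.of_finite_image h1 ?_
  intro x hx y hy hxy
  funext i
  by_cases hi : i ∈ F k
  · exact congrFun hxy ⟨i, hi⟩
  · rw [hx.2 i hi, hy.2 i hi]

/-- states of the construction. -/
structure St (I : Type) where
  t : ℕ
  S : Set (Word I)
  u : List (Letter I)
  J : I → Finset ℕ

/-- one step of the construction. -/
structure Step (F : ℕ → Finset I) (B : ℕ → I → Finset ℕ) (A : Set (Word I)) (n : ℕ)
    (σ σ' : St I) : Prop where
  lt : σ.t < σ'.t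
  good : Good F B σ.t σ'.t σ'.u
  J1 : ∀ i ∈ F σ'.t, (σ'.J i).Nonempty ∧ σ'.J i ⊆ B σ'.t i
  J2 : ∀ i ∈ F n, n ≤ (σ'.J i).card
  mem : ∀ w ∈ σ.S, ∀ x ∈ box F σ'.t σ'.J,
    w * FreeMonoid.ofList (σ'.u ++ [(σ'.t, x)]) ∈ σ'.S
  sub : σ'.S ⊆ A

theorem exists_step {hF : Monotone F} {V : Ultrafilter (Word I)}
    (hV : (V : Filter _) ≤ LF hF B) {A : Set (Word I)}
    (hA : ∀ w ∈ A, ∀ᶠ v in V, w * v ∈ A) {σ : St I} (hfin : σ.S.Finite)
    (hσ : ∀ w ∈ σ.S, ∀ᶠ v in V, w * v ∈ A) (n : ℕ) :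
    ∃ σ' : St I, Step F B A n σ σ' ∧ σ'.S.Finite ∧ ∀ w ∈ σ'.S, ∀ᶠ v in V, w * v ∈ A := by
  have h1 : ∀ᶠ v in V, ∀ w ∈ σ.S, w * v ∈ A := (Filter.eventually_all_finite hfin).mpr hσ
  obtain ⟨u, k, J, hu, hk, hJ, hJm, hA'⟩ := large_of_mem hV h1 (max σ.t n)
  let S' : Set (Word I) := Set.image2 (fun w x => w * FreeMonoid.ofList (u ++ [(k, x)])) σ.S
    (box F k J)
  have hS' : S' ⊆ A := by
    rintro _ ⟨w, hw, x, hx, rfl⟩
    exact hA' x hx w hw
  refine ⟨⟨k, S', u, J⟩, ⟨lt_of_le_of_lt (le_max_left _ _) hk, ?_, hJ, ?_, ?_, hS'⟩, ?_, ?_⟩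
  · exact ⟨fun a ha => ⟨lt_of_le_of_lt (le_max_left _ _) (hu.lt a ha).1, (hu.lt a ha).2⟩, hu.inc,
      hu.mem⟩
  · exact fun i hi => (le_max_right _ _).trans (hJm i (hF (le_max_right _ _) hi))
  · intro w hw x hx
    exact ⟨w, hw, x, hx, rfl⟩
  · exact hfin.image2 _ (box_finite k J)
  · exact fun w hw => hA w (hS' hw)

theorem exists_seq {hF : Monotone F} {V : Ultrafilter (Word I)}
    (hV : (V : Filter _) ≤ LF hF B) {A : Set (Word I)} (hAV : A ∈ V)
    (hA : ∀ w ∈ A, ∀ᶠ v in V, w * v ∈ A) :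
    ∃ σ : ℕ → St I, (σ 0).t = 0 ∧ 1 ∈ (σ 0).S ∧ ∀ n, Step F B A n (σ n) (σ (n + 1)) := by
  let P : St I → Prop := fun σ => σ.S.Finite ∧ ∀ w ∈ σ.S, ∀ᶠ v in V, w * v ∈ A
  have hstep : ∀ (n : ℕ) (σ : {σ : St I // P σ}), ∃ σ' : {σ : St I // P σ},
      Step F B A n σ.1 σ'.1 := by
    rintro n ⟨σ, h1, h2⟩
    obtain ⟨σ', h3, h4, h5⟩ := exists_step hV hA h1 h2 n
    exact ⟨⟨σ', h4, h5⟩, h3⟩
  choose nx hnx using hstep
  let σ0 : {σ : St I // P σ} := ⟨⟨0, {1}, [], fun _ => ∅⟩, Set.finite_singleton _, by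
    intro w hw
    rw [Set.mem_singleton_iff.mp hw]
    simp only [one_mul]
    exact hAV⟩
  let q : ℕ → {σ : St I // P σ} := fun n => Nat.rec σ0 (fun n σ => nx n σ) n
  exact ⟨fun n => (q n).1, rfl, Set.mem_singleton _, fun n => hnx n (q n)⟩

end

open Classical in
/-- restriction to `E`. -/
noncomputable def res {I : Type} (E : Finset I) (x : I → ℕ) : I → ℕ :=
  fun i => if i ∈ E then x i else 0

theorem res_mem {I : Type} {E : Finset I} {x : I → ℕ} {i : I} (hi : i ∈ E) : res E x i = x i := by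
  unfold res
  rw [if_pos hi]

theorem res_notMem {I : Type} {E : Finset I} {x : I → ℕ} {i : I} (hi : i ∉ E) : res E x i = 0 := by
  unfold res
  rw [if_neg hi]

/-- the words of the construction along the history `h`. -/
noncomputable def wd {I : Type} (F : ℕ → Finset I) (σ : ℕ → St I) (h : ℕ → I → ℕ) : ℕ → Word I
  | 0 => 1
  | n + 1 => wd F σ h n * FreeMonoid.ofList ((σ (n + 1)).u ++
      [((σ (n + 1)).t, res (F (σ (n + 1)).t) (h (σ (n + 1)).t))])

/-- the default history. -/
noncomputable def dh {I : Type} (e : ℕ → I → ℕ) (σ : ℕ → St I) : ℕ → ℕ → I → ℕ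
  | 0 => e
  | n + 1 => (σ (n + 1)).u.foldl upd (dh e σ n)

/-- `C t H` is the colour of the history `H` up to the level `t`. -/
theorem partition_theorem {I : Type} (F : ℕ → Finset I) (hF : Monotone F)
    (B : ℕ → I → Finset ℕ) (hB : ∀ t, ∀ i ∈ F t, (B t i).Nonempty ∧ t ≤ (B t i).card)
    (C : ℕ → (ℕ → I → ℕ) → Prop)
    (hC : ∀ t h h', (∀ s ≤ t, ∀ i ∈ F s, h s i = h' s i) → (C t h ↔ C t h')) :
    ∃ (T : Set ℕ) (J : ℕ → I → Finset ℕ), T.Infinite ∧
      (∀ t, ∀ i ∈ F t, (J t i).Nonempty ∧ J t i ⊆ B t i) ∧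
      (∀ t₀, ∀ i ∈ F t₀, ∀ m, ∃ n, ∀ t ∈ T, n ≤ t → m ≤ (J t i).card) ∧
      ((∀ t ∈ T, ∀ h, (∀ s ≤ t, ∀ i ∈ F s, h s i ∈ J s i) → C t h) ∨
        (∀ t ∈ T, ∀ h, (∀ s ≤ t, ∀ i ∈ F s, h s i ∈ J s i) → ¬ C t h)) := by
  classical
  -- base points
  let e : ℕ → I → ℕ := fun t i => if h : i ∈ F t then (hB t i h).1.choose else 0
  have he : ∀ s, ∀ i ∈ F s, e s i ∈ B s i := by
    intro s i hi
    simp only [e, dif_pos hi]
    exact (hB s i hi).1.choose_spec
  -- the ultrafilter
  obtain ⟨V, hV, hVV⟩ := exists_idem hF hB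
  let A1 : Set (Word I) := {w | C (lvl w) (hist e w)}
  obtain ⟨c, A0, hA0V, hA0⟩ : ∃ (c : Prop) (A0 : Set (Word I)), A0 ∈ V ∧
      ∀ w ∈ A0, (C (lvl w) (hist e w) ↔ c) := by
    by_cases h1 : A1 ∈ V
    · exact ⟨True, A1, h1, fun w hw => iff_true_intro hw⟩
    · exact ⟨False, A1ᶜ, Ultrafilter.compl_mem_iff_notMem.mpr h1, fun w hw => iff_false_intro hw⟩
  let A : Set (Word I) := {w | w ∈ A0 ∧ ∀ᶠ v in V, w * v ∈ A0}
  have hAV : A ∈ V := by
    have h1 : ∀ᶠ w in V, ∀ᶠ v in V, w * v ∈ A0 := by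
      rw [← Ultrafilter.eventually_mul V V (· ∈ A0), hVV]
      exact hA0V
    exact (Filter.Eventually.and hA0V h1)
  have hA : ∀ w ∈ A, ∀ᶠ v in V, w * v ∈ A := by
    rintro w ⟨hw1, hw2⟩
    have h1 : ∀ᶠ v in V, ∀ᶠ v' in V, w * (v * v') ∈ A0 := by
      rw [← Ultrafilter.eventually_mul V V (fun v => w * v ∈ A0), hVV]
      exact hw2
    filter_upwards [hw2, h1] with v hv1 hv2
    refine ⟨hv1, ?_⟩
    filter_upwards [hv2] with v' hv'
    rw [mul_assoc]
    exact hv'
  obtain ⟨σ, hσ0, hσ1, hσ⟩ := exists_seq hV hAV hA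
  -- the levels
  have hmono : StrictMono fun n => (σ n).t := strictMono_nat_of_lt_succ fun n => (hσ n).lt
  have hlt : ∀ {m n : ℕ}, m < n → (σ m).t < (σ n).t := fun h => hmono h
  have hinj : ∀ {m n : ℕ}, (σ m).t = (σ n).t → m = n := fun h => hmono.injective h
  have hge : ∀ n, n ≤ (σ n).t := fun n => hmono.id_le n
  -- default history
  have hdB : ∀ n, ∀ s, ∀ i ∈ F s, dh e σ n s i ∈ B s i := by
    intro n
    induction n with
    | zero => exact he
    | succ n ih => exact foldl_upd_mem _ _ ih (hσ n).good.mem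
  have hd1 : ∀ n s, s ≤ (σ n).t → dh e σ (n + 1) s = dh e σ n s := by
    intro n s hs
    refine foldl_upd_of_ne _ _ _ ?_
    intro a ha
    have := ((hσ n).good.lt a ha).1
    omega
  have hd2 : ∀ n k s, s ≤ (σ n).t → dh e σ (n + k) s = dh e σ n s := by
    intro n k s hs
    induction k with
    | zero => rfl
    | succ k ih =>
      rw [← ih]
      exact hd1 (n + k) s (hs.trans (hmono.monotone (Nat.le_add_right n k)))
  have hd3 : ∀ n s, s ≤ (σ n).t → dh e σ n s = dh e σ s s := by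
    intro n s hs
    have h1 := hd2 n s s hs
    have h2 := hd2 s n s (hge s)
    rw [← h1, ← h2, Nat.add_comm]
  let T : Set ℕ := Set.range fun n => (σ (n + 1)).t
  let J : ℕ → I → Finset ℕ := fun s i =>
    if h : ∃ n, s = (σ (n + 1)).t then (σ (h.choose + 1)).J i else {dh e σ s s i}
  have hJ1 : ∀ n i, J (σ (n + 1)).t i = (σ (n + 1)).J i := by
    intro n i
    have h : ∃ n', (σ (n + 1)).t = (σ (n' + 1)).t := ⟨n, rfl⟩
    have h2 : h.choose + 1 = n + 1 := (hinj h.choose_spec).symm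
    simp only [J, dif_pos h]
    rw [h2]
  have hJ2 : ∀ s i, s ∉ T → J s i = {dh e σ s s i} := by
    intro s i hs
    have h : ¬ ∃ n, s = (σ (n + 1)).t := fun ⟨n, hn⟩ => hs ⟨n, hn.symm⟩
    simp only [J, dif_neg h]
  refine ⟨T, J, ?_, ?_, ?_, ?_⟩
  · exact Set.infinite_range_of_injective fun m n hmn => by
      have := hinj hmn
      omega
  · intro s i hi
    by_cases hs : s ∈ T
    · obtain ⟨n, rfl⟩ := hs
      change (J (σ (n + 1)).t i).Nonempty ∧ J (σ (n + 1)).t i ⊆ B (σ (n + 1)).t i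
      rw [hJ1]
      exact (hσ n).J1 i hi
    · rw [hJ2 s i hs]
      exact ⟨Finset.singleton_nonempty _, Finset.singleton_subset_iff.mpr (hdB s s i hi)⟩
  · intro t₀ i hi m
    refine ⟨(σ (max t₀ m + 1)).t, ?_⟩
    rintro _ ⟨n, rfl⟩ hn
    change m ≤ (J (σ (n + 1)).t i).card
    have hn' : (σ (max t₀ m + 1)).t ≤ (σ (n + 1)).t := hn
    have h1 : max t₀ m + 1 ≤ n + 1 := hmono.le_iff_le.mp hn'
    have h2 : max t₀ m ≤ n := by omega
    rw [hJ1]
    have h3 := (hσ n).J2 i (hF ((le_max_left _ _).trans h2) hi)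
    exact ((le_max_right _ _).trans h2).trans h3
  · -- the colour
    have hmain : ∀ n, ∀ h : ℕ → I → ℕ,
        (∀ s ≤ (σ (n + 1)).t, ∀ i ∈ F s, h s i ∈ J s i) → (C (σ (n + 1)).t h ↔ c) := by
      intro n h hh
      have hbox : ∀ m, m ≤ n → res (F (σ (m + 1)).t) (h (σ (m + 1)).t) ∈
          box F (σ (m + 1)).t (σ (m + 1)).J := by
        intro m hm
        refine ⟨fun i hi => ?_, fun i hi => res_notMem hi⟩
        rw [res_mem hi]
        have h1 := hh (σ (m + 1)).t (hmono.monotone (by omega)) i hi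
        rwa [hJ1] at h1
      have hwS : ∀ m, m ≤ n + 1 → wd F σ h m ∈ (σ m).S := by
        intro m
        induction m with
        | zero => intro _; exact hσ1
        | succ m ih =>
          intro hm
          exact (hσ m).mem _ (ih (by omega)) _ (hbox m (by omega))
      -- the history of the word
      have hh1 : ∀ m s, s ∉ T → hist e (wd F σ h m) s = dh e σ m s := by
        intro m
        induction m with
        | zero => intro s _; rfl
        | succ m ih =>
          intro s hs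
          have h1 : s ≠ (σ (m + 1)).t := fun h2 => hs ⟨m, h2.symm⟩
          change hist e (wd F σ h m * FreeMonoid.ofList ((σ (m + 1)).u ++
            [((σ (m + 1)).t, res (F (σ (m + 1)).t) (h (σ (m + 1)).t))])) s = _
          rw [hist_last, Function.update_of_ne h1]
          exact foldl_upd_congr _ _ _ _ (ih s hs)
      have hh2 : ∀ m k, k < m → hist e (wd F σ h m) (σ (k + 1)).t =
          res (F (σ (k + 1)).t) (h (σ (k + 1)).t) := by
        intro m
        induction m with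
        | zero => intro k hk; omega
        | succ m ih =>
          intro k hk
          change hist e (wd F σ h m * FreeMonoid.ofList ((σ (m + 1)).u ++
            [((σ (m + 1)).t, res (F (σ (m + 1)).t) (h (σ (m + 1)).t))])) _ = _
          rw [hist_last]
          by_cases hkm : k = m
          · rw [hkm, Function.update_self]
          · have h1 : (σ (k + 1)).t ≠ (σ (m + 1)).t := fun h2 => by
              have := hinj h2
              omega
            rw [Function.update_of_ne h1, foldl_upd_of_ne]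
            · exact ih k (by omega)
            · intro a ha h2
              have h3 := ((hσ m).good.lt a ha).1
              have h4 : (σ (k + 1)).t ≤ (σ m).t := hmono.monotone (by omega)
              omega
      have hwA : wd F σ h (n + 1) ∈ A0 := ((hσ n).sub (hwS (n + 1) le_rfl)).1
      have hcol := hA0 _ hwA
      have hlv : lvl (wd F σ h (n + 1)) = (σ (n + 1)).t := lvl_last _ _ _ _
      rw [hlv] at hcol
      rw [← hcol]
      apply hC
      intro s hs i hi
      by_cases hsT : s ∈ T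
      · obtain ⟨k, rfl⟩ := hsT
        have hs' : (σ (k + 1)).t ≤ (σ (n + 1)).t := hs
        have hk : k < n + 1 := by
          have := hmono.le_iff_le.mp hs'
          omega
        change h (σ (k + 1)).t i = hist e (wd F σ h (n + 1)) (σ (k + 1)).t i
        rw [hh2 (n + 1) k hk, res_mem hi]
      · rw [hh1 (n + 1) s hsT, hd3 (n + 1) s hs]
        have h1 := hh s hs i hi
        rw [hJ2 s i hsT] at h1
        exact Finset.mem_singleton.mp h1
    by_cases hc : c
    · left
      rintro _ ⟨n, rfl⟩ h hh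
      exact (hmain n h hh).mpr hc
    · right
      rintro _ ⟨n, rfl⟩ h hh
      exact fun h1 => hc ((hmain n h hh).mp h1)

end Pool.Agent.Helper14.FV
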